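import Pool.Agent.MP_1246c0_nt.H12.SpecN

namespace Pool.Agent.MP_1246c0_nt.H12

open Finset Filter Topology

namespace PRM

theorem poly (k a : ℕ) : ∀ᶠ t : ℕ in atTop, k * (t + a) ^ 10 ≤ 2 ^ (t / 20) := by
  have h := (tendsto_pow_const_div_const_pow_of_one_lt 10 (one_lt_two (α := ℝ))).eventually_le_const
    (show (0 : ℝ) < 1 / ((k + 1) * 21 ^ 10) by positivity)
  obtain ⟨M, hM⟩ := eventually_atTop.1 h
  filter_upwards [eventually_ge_atTop (20 * (M + a + 19))] with t ht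
  have h1 := hM (t / 20) (by omega)
  rw [div_le_div_iff₀ (by positivity) (by positivity), one_mul] at h1
  have h2 : (t / 20) ^ 10 * ((k + 1) * 21 ^ 10) ≤ 2 ^ (t / 20) := by exact_mod_cast h1
  calc k * (t + a) ^ 10 ≤ (k + 1) * (t / 20 * 21) ^ 10 := by gcongr <;> omega
    _ = (t / 20) ^ 10 * ((k + 1) * 21 ^ 10) := by ring
    _ ≤ _ := h2

theorem big {r : ℝ} (h : 10 ^ 14 ≤ r) : 1000 * r ^ 6 ≤ Real.exp (r / 10) := by
  have h0 : 0 ≤ r := le_trans (by norm_num) h
  refine le_trans ?_ (Real.pow_div_factorial_le_exp _ (by positivity) 7)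
  have : 0 ≤ r ^ 6 := by positivity
  norm_num [Nat.factorial, div_pow]
  nlinarith [mul_le_mul_of_nonneg_left h this]

end PRM

theorem rowPRM : SPRM := by
  intro j0 K
  obtain ⟨k, hk⟩ := exists_nat_ge K
  obtain ⟨T, hT⟩ := eventually_atTop.1 (PRM.poly (k + 6) (j0 + 10))
  have hl : Tendsto ll atTop atTop :=
    Real.tendsto_log_atTop.comp (Real.tendsto_log_atTop.comp tendsto_natCast_atTop_atTop)
  filter_upwards [hl.eventually_ge_atTop (10 ^ 14), hl.eventually_ge_atTop (3 * k),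
    hl.eventually_ge_atTop ((2 ^ (T + k + 20 + (j0 + 5)) : ℕ) : ℝ), eventually_gt_atTop 1]
    with X h1 h2 h3 hX
  have hX' : (1 : ℝ) < X := by exact_mod_cast hX
  have hL : 0 < Real.log X := Real.log_pos hX'
  have hE : Real.exp (ll X) = Real.log X := Real.exp_log hL
  have hb := PRM.big h1
  have hs : s2 X / s1 X = Real.exp (ll X) / (1000 * ll X ^ 6) := by
    rw [s1, s2, hE]; field_simp
  have hY : (YY X : ℝ) ≤ Real.exp (ll X ^ 5 + 1) := by
    have := Nat.ceil_lt_add_one (Real.exp_pos (ll X ^ 5)).le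
    have e1 := Real.add_one_le_exp 1
    have e2 : 1 ≤ Real.exp (ll X ^ 5) := Real.one_le_exp (by positivity)
    rw [YY, Real.exp_add]
    nlinarith
  have hY1 : 1 ≤ YY X := Nat.ceil_pos.2 (Real.exp_pos _)
  have hn : T + k + 20 + (j0 + 5) ≤ Nat.log 2 ⌊ll X⌋₊ :=
    Nat.le_log_of_pow_le one_lt_two (Nat.le_floor h3)
  have ht : tpX X j0 + j0 + 5 = Nat.log 2 ⌊ll X⌋₊ := by rw [tpX]; omega
  generalize hr : ll X = r at *
  generalize tpX X j0 = t at *
  have r1 : 1 ≤ r := le_trans (by norm_num) h1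
  have k0 : (0 : ℝ) ≤ k := k.cast_nonneg
  have f0 : ⌊r⌋₊ ≠ 0 := (Nat.floor_pos.2 r1).ne'
  have a1 : (2 : ℝ) ^ (t + j0 + 5) ≤ r := by
    rw [ht]
    exact le_trans (by exact_mod_cast Nat.pow_log_le_self 2 f0) (Nat.floor_le (by positivity))
  have a2 : r < 2 ^ (t + j0 + 6) := by
    have := Nat.lt_pow_succ_log_self one_lt_two ⌊r⌋₊
    rw [← ht] at this
    exact (Nat.lt_floor_add_one r).trans_le (by exact_mod_cast this)
  have a3 : Real.log r ≤ t + j0 + 6 := by
    have := Real.log_le_log (by positivity) a2.le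
    rw [Real.log_pow] at this
    have l2 : Real.log 2 ≤ 1 := by have := Real.log_two_lt_d9; linarith
    push_cast at this
    nlinarith [t.cast_nonneg (α := ℝ), j0.cast_nonneg (α := ℝ)]
  have l0 : 0 ≤ Real.log r := Real.log_nonneg r1
  have p1 : ((k : ℝ) + 6) * (t + (j0 + 10)) ^ 10 ≤ 2 ^ (t / 20) := by
    exact_mod_cast hT t (by omega)
  have t0 : (0 : ℝ) ≤ t := t.cast_nonneg
  have j1 : (0 : ℝ) ≤ j0 := j0.cast_nonneg
  have p2 : ((k : ℝ) + 6) * (Real.log r + 1) ≤ 2 ^ (t / 20) := by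
    refine le_trans (mul_le_mul_of_nonneg_left ?_ (by positivity)) p1
    exact le_trans (by linarith) (le_self_pow₀ (by linarith) (by norm_num))
  have p3 : K * (Real.log r + 1) ≤ 2 ^ (t / 20) :=
    le_trans (mul_le_mul_of_nonneg_right (by linarith) (by linarith)) p2
  have pw : ∀ a b : ℕ, a ≤ b → (2 : ℝ) ^ a ≤ 2 ^ b := fun a b h => pow_le_pow_right₀ one_le_two h
  have r6 : r ≤ r ^ 6 := le_self_pow₀ r1 (by norm_num)
  have r5 : 1 ≤ r ^ 5 := one_le_pow₀ r1
  have e1 : Real.exp (r / 10) ≤ Real.exp r := Real.exp_le_exp.2 (by linarith)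
  have s2e : s2 X = 1 / r ^ 6 := by rw [s2, hr]
  have lg : Real.log (s2 X / s1 X) = r - Real.log (1000 * r ^ 6) := by
    rw [hs, Real.log_div (by positivity) (by positivity), Real.log_exp]
  refine ⟨by linarith, by rw [s1]; positivity, ?_, ?_, a1, a2, ?_, ?_, ?_, ?_, ?_, ?_, ?_, ?_, ?_,
    hY1⟩
  · rw [s1, s2e, div_le_div_iff₀ hL (by positivity)]
    linarith
  · rw [s2e, div_le_one (by positivity)]
    linarith
  · exact hk.trans (by exact_mod_cast (by omega : k ≤ t))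
  · have := (Real.log_le_iff_le_exp (by positivity)).2 hb
    linarith
  · have := Real.log_nonneg (show 1 ≤ 1000 * r ^ 6 by linarith)
    linarith
  · rw [s2e, mul_one_div, div_le_one (by positivity)]
    calc K * ((t : ℝ) + 10) ^ 10 ≤ ((k : ℝ) + 6) * (t + (j0 + 10)) ^ 10 := by
          gcongr <;> linarith
      _ ≤ _ := p1.trans ((pw _ _ (by omega)).trans (a1.trans r6))
  · rw [s2e, mul_one_div, div_le_one (by positivity)]
    have y0 : (1 : ℝ) ≤ YY X := by exact_mod_cast hY1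
    have y1 := (Real.log_le_iff_le_exp (by positivity)).2 hY
    have y2 := Real.log_nonneg y0
    calc K * (Real.log (YY X) + 1) ≤ k * (3 * r ^ 5) := by gcongr; linarith
      _ = 3 * k * r ^ 5 := by ring
      _ ≤ r * r ^ 5 := by gcongr
      _ = r ^ 6 := by ring
  · refine p3.trans ?_
    rw [xx, jj]
    push_cast
    exact pw _ _ (by omega)
  · calc K * (Real.log r + 1) * 2 ^ (t / 2) ≤ 2 ^ (t / 20) * 2 ^ (t / 2) := by gcongr
      _ ≤ _ := by rw [← pow_add]; exact (pw _ _ (by omega)).trans a1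
  · refine le_trans ?_ (p2.trans (pw _ _ (by omega)))
    nlinarith
  · have : (YY X : ℝ) ^ 2 ≤ X := by
      calc (YY X : ℝ) ^ 2 ≤ Real.exp (r ^ 5 + 1) ^ 2 := by gcongr
        _ = Real.exp (2 * (r ^ 5 + 1)) := by rw [← Real.exp_nat_mul]; norm_num
        _ ≤ Real.exp (Real.log X) := by
          refine Real.exp_le_exp.2 ?_
          have : r ^ 5 ≤ r ^ 6 := pow_le_pow_right₀ r1 (by norm_num)
          linarith
        _ = X := Real.exp_log (by positivity)
    exact_mod_cast this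

end Pool.Agent.MP_1246c0_nt.H12
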